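import Mathlib
import Pool.Agent.L7h45.Mono3

/-!
# Monochromatic convex polygons in two-coloured point sets: a polynomial bound for `log g(p)`

`g p` is the least number `n` such that every set of `n` points of the plane in general position and
every two-colouring of its pairs contain `p` points in convex position all of whose pairs have the
same colour.  We prove `log₂ g(p) ≤ 4 p² (1 + log₂ p)`.

Proof.  Repeatedly take the leftmost remaining point `x` and keep, among the remaining points, a
largest class of points which see `x` in the same colour and lie in the same of the at most `j + 1`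
sectors cut out by the lines from the `j` earlier points through `x`.  This gives a sequence in which
the colour of a pair depends only on its first point, and the orientation of a triple only on its
first two points.  The majority colour and the Erdős–Szekeres theorem on monotone subsequences,
applied to the slopes of the lines to the last point, give a monochromatic cup or cap.
-/

set_option autoImplicit false

namespace Pool.Agent.Results.MP_6c3374_co.QuadExponent

open Finset

/-- No three distinct points of `P` are collinear. -/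
def GenPos (P : Finset (ℝ × ℝ)) : Prop :=
  ∀ x ∈ P, ∀ y ∈ P, ∀ z ∈ P, x ≠ y → x ≠ z → y ≠ z → ¬ Collinear ℝ ({x, y, z} : Set (ℝ × ℝ))

/-- Convex position: no point of `K` lies in the convex hull of the other points of `K`. -/
def ConvexPos (K : Finset (ℝ × ℝ)) : Prop :=
  ∀ x ∈ K, x ∉ convexHull ℝ ((K : Set (ℝ × ℝ)) \ {x})

/-- Every `n` points in general position with two-coloured pairs contain `p` points in convex
position all of whose pairs have the same colour. -/
def HasProp (p n : ℕ) : Prop :=
  ∀ P : Finset (ℝ × ℝ), P.card = n → GenPos P → ∀ c : Sym2 (ℝ × ℝ) → Bool,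
    ∃ K ⊆ P, K.card = p ∧ ConvexPos K ∧ ∃ γ : Bool, ∀ x ∈ K, ∀ y ∈ K, x ≠ y → c s(x, y) = γ

/-- the number `g(p)` -/
noncomputable def g (p : ℕ) : ℕ := sInf {n | HasProp p n}

theorem result : ∀ p : ℕ, 3 ≤ p →
    HasProp p (g p) ∧ Real.logb 2 (g p) ≤ 4 * (p : ℝ) ^ 2 * (1 + Real.logb 2 p) := by
  intro p hp
  set t := 2 * ((p - 2) * (p - 2)) + 2 with ht
  have hmem : HasProp p (L7h45.Mono.B 0 t) := by
    intro P hP hgen c
    exact L7h45.Mono.main p hp P hP.ge hgen c
  have hne : {n | HasProp p n}.Nonempty := ⟨_, hmem⟩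
  refine ⟨Nat.sInf_mem hne, ?_⟩
  have hle : g p ≤ L7h45.Mono.B 0 t := Nat.sInf_le hmem
  have hle2 : g p ≤ (2 * t) ^ t := hle.trans (by simpa using L7h45.Mono.B_le t 0)
  have hlogp : 0 ≤ Real.logb 2 p := Real.logb_nonneg (by norm_num) (by exact_mod_cast (by omega : 1 ≤ p))
  rcases Nat.eq_zero_or_pos (g p) with h0 | hpos
  · rw [h0]
    simp only [Nat.cast_zero, Real.logb_zero]
    positivity
  have ht2 : 2 * t ≤ 4 * p ^ 2 := by
    obtain ⟨q, rfl⟩ : ∃ q, p = q + 2 := ⟨p - 2, by omega⟩
    simp only [Nat.add_sub_cancel] at ht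
    rw [ht]
    nlinarith
  have htpos : 0 < t := by omega
  have h1 : Real.logb 2 (g p) ≤ Real.logb 2 (((2 * t) ^ t : ℕ) : ℝ) :=
    Real.logb_le_logb_of_le (by norm_num) (by exact_mod_cast hpos) (by exact_mod_cast hle2)
  have h2 : Real.logb 2 (((2 * t) ^ t : ℕ) : ℝ) = t * Real.logb 2 ((2 * t : ℕ) : ℝ) := by
    push_cast
    rw [Real.logb_pow]
  have h3 : Real.logb 2 ((2 * t : ℕ) : ℝ) ≤ 2 + 2 * Real.logb 2 p := by
    have : Real.logb 2 ((2 * t : ℕ) : ℝ) ≤ Real.logb 2 (4 * (p : ℝ) ^ 2) :=
      Real.logb_le_logb_of_le (by norm_num) (by exact_mod_cast (by omega : 0 < 2 * t))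
        (by exact_mod_cast ht2)
    refine this.trans (le_of_eq ?_)
    have hp0 : (p : ℝ) ≠ 0 := by
      have : 0 < p := by omega
      positivity
    rw [Real.logb_mul (by norm_num) (pow_ne_zero 2 hp0), Real.logb_pow]
    have h4 : Real.logb 2 4 = 2 := by
      rw [show (4 : ℝ) = 2 ^ (2 : ℕ) by norm_num, Real.logb_pow]
      rw [Real.logb_self_eq_one (by norm_num)]
      norm_num
    rw [h4]
    norm_num
  have h5 : (t : ℝ) ≤ 2 * (p : ℝ) ^ 2 := by
    have : t ≤ 2 * p ^ 2 := by omega
    exact_mod_cast this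
  calc Real.logb 2 (g p) ≤ t * Real.logb 2 ((2 * t : ℕ) : ℝ) := h1.trans h2.le
    _ ≤ t * (2 + 2 * Real.logb 2 p) := by gcongr
    _ ≤ 2 * (p : ℝ) ^ 2 * (2 + 2 * Real.logb 2 p) := by gcongr
    _ = 4 * (p : ℝ) ^ 2 * (1 + Real.logb 2 p) := by ring

end Pool.Agent.Results.MP_6c3374_co.QuadExponent
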